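import Pool.Agent.Helper28.OR.Torus

/-!
# From one-relator groups to all systems in the same number of variables, conclusion
-/

set_option autoImplicit false

namespace Pool.Agent.Helper28.OR

open MvPolynomial Pool.Agent.E8helper17.FZ

variable {P : ℕ}

theorem tv_eq {n : ℕ} {K : Type} [Field K] (a : Fin n → Kˣ) (g : MvPolynomial (Fin n) ℤ) :
    aeval (fun i => (a i : K)) g = tv a g := rfl

/-- inclusion and exclusion for the union of the hypersurface and `a_0 = a_1 = 1` -/
theorem card_union {m : ℕ} (K : Type) [Field K] [Finite K] (g : MvPolynomial (Fin (m + 2)) ℤ) :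
    (Nat.card {a : Fin (m + 2) → Kˣ // tv a g = 0 ∨ (a 0 = 1 ∧ a 1 = 1)} : ℤ) =
      Nat.card {a : Fin (m + 2) → Kˣ // tv a g = 0} + ((Nat.card K : ℤ) - 1) ^ m -
      Nat.card {a : Fin (m + 2) → Kˣ // (a 0 = 1 ∧ a 1 = 1) ∧ tv a g = 0} := by
  rw [← card_one01, card_eq_sum, card_eq_sum, card_eq_sum, card_eq_sum, ← fs_add, ← fs_sub]
  refine finsum_congr fun a => ?_
  rw [ind_or, ind_and (a 0 = 1 ∧ a 1 = 1)]
  ring

theorem card_le_torus {n : ℕ} (K : Type) [Field K] [Finite K] (p : (Fin n → Kˣ) → Prop) :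
    |(Nat.card {a : Fin n → Kˣ // p a} : ℤ)| ≤ (Nat.card K : ℤ) ^ n := by
  rw [abs_of_nonneg (by positivity)]
  have h1 : Nat.card {a : Fin n → Kˣ // p a} ≤ Nat.card (Fin n → Kˣ) := Finite.card_subtype_le _
  have h2 : (Nat.card {a : Fin n → Kˣ // p a} : ℤ) ≤ Nat.card (Fin n → Kˣ) := by exact_mod_cast h1
  rw [card_torus] at h2
  refine h2.trans (pow_le_pow_left₀ ?_ (by linarith) n)
  have : (1 : ℤ) ≤ Nat.card K := by exact_mod_cast Nat.card_pos
  linarith

theorem card_one01' {m : ℕ} (K : Type) [Field K] (g : MvPolynomial (Fin (m + 2)) ℤ) :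
    Nat.card {a : Fin (m + 2) → Kˣ // (a 0 = 1 ∧ a 1 = 1) ∧ tv a (onep g) = 0} =
    Nat.card {a : Fin (m + 2) → Kˣ // (a 0 = 1 ∧ a 1 = 1) ∧ tv a g = 0} := by
  refine Nat.card_congr (Equiv.subtypeEquivRight fun a => and_congr_right fun h => ?_)
  rw [tv_onep]
  have e : one01 a = a := by
    funext i
    unfold one01
    by_cases h1 : i = 1
    · subst h1
      rw [Function.update_self, h.2]
    · rw [Function.update_of_ne h1]
      by_cases h0 : i = 0
      · subst h0
        rw [Function.update_self, h.1]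
      · rw [Function.update_of_ne h0]
  rw [e]

/-- **From one-relator groups to all systems.** -/
theorem all_of_one {m : ℕ} (h : ∀ w ∈ commutator (FreeGroup (Fin (m + 2))),
      Continues P (fun K _ => (Nat.card (PresentedGroup {w} →* (K ≃ᵃ[K] K)) : ℤ)))
    (r : ℕ) (f : Fin r → MvPolynomial (Fin (m + 2)) ℤ) :
    Continues P (fun K _ => (points f K : ℤ)) := by
  -- the constant one
  have h1 : Continues P (fun _ _ => 1) := by
    obtain ⟨w, hwc, hw⟩ := exists_word_card (1 : MvPolynomial (Fin (m + 2)) ℤ)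
    refine cont_div (n := 0) (fun K _ _ => by simp)
      (Polynomial.X ^ (m + 2) * (Polynomial.X - Polynomial.C 1) ^ (m + 1))
      ((Polynomial.monic_X_pow _).mul ((Polynomial.monic_X_sub_C 1).pow _)) (h w hwc) fun K _ _ => ?_
    rw [hw K]
    have e : Nat.card {a : Fin (m + 2) → Kˣ // aeval (fun i => (a i : K))
        (1 : MvPolynomial (Fin (m + 2)) ℤ) = 0 ∨ (a 0 = 1 ∧ a 1 = 1)} =
        Nat.card {a : Fin (m + 2) → Kˣ // a 0 = 1 ∧ a 1 = 1} := by
      refine Nat.card_congr (Equiv.subtypeEquivRight fun a => ?_)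
      simp
    rw [e, card_one01]
    simp
    ring
  have hpoly := cont_poly h1
  -- the unions
  have hU : ∀ g : MvPolynomial (Fin (m + 2)) ℤ, Continues P (fun K _ =>
      (Nat.card {a : Fin (m + 2) → Kˣ // tv a g = 0 ∨ (a 0 = 1 ∧ a 1 = 1)} : ℤ)) := by
    intro g
    obtain ⟨w, hwc, hw⟩ := exists_word_card g
    refine cont_div (n := m + 2) (fun K _ _ => card_le_torus K _)
      (Polynomial.X ^ (m + 1) * (Polynomial.X - Polynomial.C 1))
      ((Polynomial.monic_X_pow _).mul (Polynomial.monic_X_sub_C 1))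
      (cont_sub (h w hwc) (hpoly (Polynomial.X ^ (m + 1) * (Polynomial.X - Polynomial.C 1) ^ (m + 2))))
      fun K _ _ => ?_
    rw [hw K]
    simp only [tv_eq, Polynomial.eval_mul, Polynomial.eval_pow, Polynomial.eval_X,
      Polynomial.eval_sub, Polynomial.eval_C]
    ring
  -- the intersections with `a_0 = a_1 = 1`
  have hW : ∀ g : MvPolynomial (Fin (m + 2)) ℤ, Continues P (fun K _ =>
      (Nat.card {a : Fin (m + 2) → Kˣ // (a 0 = 1 ∧ a 1 = 1) ∧ tv a g = 0} : ℤ)) := by
    intro g
    refine cont_div (n := m + 2) (fun K _ _ => card_le_torus K _)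
      (Polynomial.X * (Polynomial.X - Polynomial.C 2))
      (Polynomial.monic_X.mul (Polynomial.monic_X_sub_C 2))
      (cont_sub (hU (onep g)) (hpoly ((Polynomial.X - Polynomial.C 1) ^ m)))
      fun K _ _ => ?_
    rw [card_union, card_onep, card_one01']
    simp only [Polynomial.eval_mul, Polynomial.eval_pow, Polynomial.eval_X,
      Polynomial.eval_sub, Polynomial.eval_C]
    ring
  -- the hypersurfaces of the torus
  have hT : ∀ g : MvPolynomial (Fin (m + 2)) ℤ, Continues P (fun K _ =>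
      (Nat.card {a : Fin (m + 2) → Kˣ // tv a g = 0} : ℤ)) := by
    intro g
    refine continues_congr (cont_sub ((hU g).add (hW g))
      (hpoly ((Polynomial.X - Polynomial.C 1) ^ m))) fun K _ _ _ => ?_
    rw [card_union]
    simp only [Polynomial.eval_pow, Polynomial.eval_X, Polynomial.eval_sub, Polynomial.eval_C]
    ring
  have hadm : TAdm P (n := m + 2) (fun _ _ _ => 1) := by
    intro g
    refine continues_congr (cont_sub (hpoly ((Polynomial.X - Polynomial.C 1) ^ (m + 2))) (hT g))
      fun K _ _ _ => ?_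
    unfold tsum
    show _ = ∑ᶠ a : Fin (m + 2) → Kˣ, ind (tv a g ≠ 0) * 1
    have e : ∀ a : Fin (m + 2) → Kˣ, ind (tv a g ≠ 0) * 1 = 1 - ind (tv a g = 0) := by
      intro a
      rw [mul_one]
      exact ind_not _
    rw [finsum_congr e, fs_sub, card_all, card_torus, card_eq_sum]
    simp only [Polynomial.eval_pow, Polynomial.eval_X, Polynomial.eval_sub, Polynomial.eval_C]
  exact all_of_torus (fun r f => hadm.all f) r f

end Pool.Agent.Helper28.OR
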