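import Pool.Agent.Helper28.OR.Homs

/-!
# Systems of equations which are linear in a second set of variables
-/

set_option autoImplicit false

namespace Pool.Agent.Helper28.OR

open MvPolynomial Pool.Agent.E8helper17.FZ

variable {P : ℕ}

/-- `h` is admissible: the sums of `h` over all closed subsets of the affine space have
continuations -/
def AAdm (P : ℕ) {n : ℕ} (h : (K : Type) → [Field K] → (Fin n → K) → ℤ) : Prop :=
  ∀ F : Finset (MvPolynomial (Fin n) ℤ),
    Continues P (fun K _ => ∑ᶠ x : Fin n → K, ind (∀ f ∈ F, aeval x f = 0) * h K x)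

theorem aadm_one {n : ℕ} (H : ∀ (r : ℕ) (f : Fin r → MvPolynomial (Fin n) ℤ),
    Continues P (fun K _ => (points f K : ℤ))) : AAdm P (n := n) (fun _ _ _ => 1) := by
  intro F
  refine continues_congr (H F.card fun i => (F.equivFin.symm i).1) fun K _ _ _ => ?_
  unfold points
  rw [card_eq_sum]
  refine finsum_congr fun x => ?_
  rw [mul_one]
  congr 1
  rw [eq_iff_iff]
  constructor
  · intro h f hf
    have := h (F.equivFin ⟨f, hf⟩)
    simpa using this
  · intro h i
    exact h _ (F.equivFin.symm i).2

theorem AAdm.congr {n : ℕ} {h h' : (K : Type) → [Field K] → (Fin n → K) → ℤ} (hh : AAdm P h)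
    (e : ∀ (K : Type) [Field K] [Finite K] (x : Fin n → K), h K x = h' K x) : AAdm P h' := by
  intro F
  refine continues_congr (hh F) fun K _ _ _ => ?_
  refine finsum_congr fun x => ?_
  rw [e K x]

theorem AAdm.add {n : ℕ} {h h' : (K : Type) → [Field K] → (Fin n → K) → ℤ} (hh : AAdm P h)
    (hh' : AAdm P h') : AAdm P (fun K _ x => h K x + h' K x) := by
  intro F
  refine continues_congr ((hh F).add (hh' F)) fun K _ _ _ => ?_
  rw [← fs_add]
  refine finsum_congr fun x => ?_
  ring

theorem aadm_zero {n : ℕ} : AAdm P (n := n) (fun _ _ _ => 0) := by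
  intro F
  refine continues_congr (continues_zero P) fun K _ _ _ => ?_
  simp

theorem AAdm.sum {n : ℕ} {ι : Type} (s : Finset ι)
    {h : ι → (K : Type) → [Field K] → (Fin n → K) → ℤ} (hh : ∀ i ∈ s, AAdm P (h i)) :
    AAdm P (fun K _ x => ∑ i ∈ s, h i K x) := by
  classical
  induction s using Finset.induction_on with
  | empty => exact aadm_zero.congr fun K _ _ x => by simp
  | insert i s hi ih =>
    refine ((hh i (Finset.mem_insert_self i s)).add
      (ih fun j hj => hh j (Finset.mem_insert_of_mem hj))).congr fun K _ _ x => ?_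
    rw [Finset.sum_insert hi]

theorem AAdm.pow {n : ℕ} {h : (K : Type) → [Field K] → (Fin n → K) → ℤ} (hh : AAdm P h) (k : ℕ) :
    AAdm P (fun K _ x => (Nat.card K : ℤ) ^ k * h K x) := by
  intro F
  refine continues_congr ((hh F).poly_mul (Polynomial.X ^ k)) fun K _ _ _ => ?_
  rw [← fs_mul]
  refine finsum_congr fun x => ?_
  simp only [Polynomial.eval_pow, Polynomial.eval_X]
  ring

theorem AAdm.mul_eq {n : ℕ} {h : (K : Type) → [Field K] → (Fin n → K) → ℤ} (hh : AAdm P h)
    (f : MvPolynomial (Fin n) ℤ) :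
    AAdm P (fun K _ x => ind (aeval x f = 0) * h K x) := by
  classical
  intro F
  refine continues_congr (hh (insert f F)) fun K _ _ _ => ?_
  refine finsum_congr fun x => ?_
  rw [Finset.forall_mem_insert, ind_and]
  ring

theorem AAdm.mul_ne {n : ℕ} {h : (K : Type) → [Field K] → (Fin n → K) → ℤ} (hh : AAdm P h)
    (f : MvPolynomial (Fin n) ℤ) :
    AAdm P (fun K _ x => ind (aeval x f ≠ 0) * h K x) := by
  intro F
  refine continues_congr (cont_sub (hh F) (hh.mul_eq f F)) fun K _ _ _ => ?_
  rw [← fs_sub]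
  refine finsum_congr fun x => ?_
  have e : ind (aeval x f ≠ 0) = 1 - ind (aeval x f = 0) := ind_not _
  show _ * h K x - _ * (ind (aeval x f = 0) * h K x) = _ * (ind (aeval x f ≠ 0) * h K x)
  rw [e]
  ring

theorem AAdm.mul_all {n : ℕ} {h : (K : Type) → [Field K] → (Fin n → K) → ℤ} (hh : AAdm P h)
    {ι : Type} (s : Finset ι) (f : ι → MvPolynomial (Fin n) ℤ) :
    AAdm P (fun K _ x => ind (∀ i ∈ s, aeval x (f i) = 0) * h K x) := by
  classical
  induction s using Finset.induction_on with
  | empty =>
    refine hh.congr fun K _ _ x => ?_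
    rw [ind_pos (by simp), one_mul]
  | insert i s _ ih =>
    refine (ih.mul_eq (f i)).congr fun K _ _ x => ?_
    rw [Finset.forall_mem_insert, ind_and]
    ring

/-- the number of the solutions of the linear system -/
noncomputable def sol {m k : ℕ} {K : Type} [Field K] (A : Fin m → Fin k → K) : ℤ :=
  (Nat.card {b : Fin k → K // ∀ j, ∑ l, A j l * b l = 0} : ℤ)

/-- elimination of the unknown `b l` -/
theorem sol_elim {m k : ℕ} {K : Type} [Field K] (A : Fin (m + 1) → Fin (k + 1) → K)
    (l : Fin (k + 1)) (hl : A 0 l ≠ 0) :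
    sol A = sol (fun (j : Fin m) (i : Fin k) =>
      A 0 l * A j.succ (l.succAbove i) - A j.succ l * A 0 (l.succAbove i)) := by
  unfold sol
  congr 1
  refine Nat.card_congr
    { toFun := fun b => ⟨fun i => b.1 (l.succAbove i), fun j => ?_⟩
      invFun := fun b => ⟨Fin.insertNth (α := fun _ => K) l
        (-(∑ i, A 0 (l.succAbove i) * b.1 i) / A 0 l) b.1, fun j => ?_⟩
      left_inv := ?_
      right_inv := ?_ }
  · have h0 := b.2 0
    have hj := b.2 j.succ
    rw [Fin.sum_univ_succAbove _ l] at h0 hj
    have e : ∑ i, (A 0 l * A j.succ (l.succAbove i) - A j.succ l * A 0 (l.succAbove i)) *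
        b.1 (l.succAbove i) =
        A 0 l * ∑ i, A j.succ (l.succAbove i) * b.1 (l.succAbove i) -
        A j.succ l * ∑ i, A 0 (l.succAbove i) * b.1 (l.succAbove i) := by
      rw [Finset.mul_sum, Finset.mul_sum, ← Finset.sum_sub_distrib]
      refine Finset.sum_congr rfl fun i _ => ?_
      ring
    rw [e]
    linear_combination A 0 l * hj - A j.succ l * h0
  · rw [Fin.sum_univ_succAbove _ l]
    simp only [Fin.insertNth_apply_same, Fin.insertNth_apply_succAbove]
    refine Fin.cases ?_ (fun j => ?_) j
    · field_simp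
      ring
    · have hj := b.2 j
      have e : ∑ i, (A 0 l * A j.succ (l.succAbove i) - A j.succ l * A 0 (l.succAbove i)) * b.1 i =
          A 0 l * ∑ i, A j.succ (l.succAbove i) * b.1 i -
          A j.succ l * ∑ i, A 0 (l.succAbove i) * b.1 i := by
        rw [Finset.mul_sum, Finset.mul_sum, ← Finset.sum_sub_distrib]
        refine Finset.sum_congr rfl fun i _ => ?_
        ring
      rw [e] at hj
      refine mul_left_cancel₀ hl ?_
      rw [mul_zero]
      refine Eq.trans ?_ hj
      field_simp
      ring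
  · rintro ⟨b, hb⟩
    refine Subtype.ext (funext fun i => ?_)
    show Fin.insertNth (α := fun _ => K) l (-(∑ i, A 0 (l.succAbove i) * b (l.succAbove i)) / A 0 l)
      (fun i => b (l.succAbove i)) i = b i
    have h0 := hb 0
    rw [Fin.sum_univ_succAbove _ l] at h0
    rcases Fin.eq_self_or_eq_succAbove l i with h | ⟨i', h⟩
    · rw [h, Fin.insertNth_apply_same]
      field_simp
      linear_combination -h0
    · rw [h, Fin.insertNth_apply_succAbove]
  · rintro ⟨b, hb⟩
    refine Subtype.ext (funext fun i => ?_)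
    show Fin.insertNth (α := fun _ => K) l (-(∑ i, A 0 (l.succAbove i) * b i) / A 0 l) b
      (l.succAbove i) = b i
    rw [Fin.insertNth_apply_succAbove]

theorem sol_zero_row {m k : ℕ} {K : Type} [Field K] (A : Fin (m + 1) → Fin k → K)
    (h : ∀ l, A 0 l = 0) : sol A = sol (fun (j : Fin m) => A j.succ) := by
  unfold sol
  congr 1
  refine Nat.card_congr (Equiv.subtypeEquivRight fun b => ?_)
  constructor
  · intro hb j
    exact hb j.succ
  · intro hb j
    refine Fin.cases ?_ (fun j => hb j) j
    simp [h]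

theorem sol_no_row {k : ℕ} {K : Type} [Field K] [Finite K] (A : Fin 0 → Fin k → K) :
    sol A = (Nat.card K : ℤ) ^ k := by
  unfold sol
  rw [← card_aff]
  congr 1
  exact Nat.card_congr (Equiv.subtypeUnivEquiv fun b j => j.elim0)

theorem sol_no_col {m : ℕ} {K : Type} [Field K] (A : Fin m → Fin 0 → K) :
    sol A = 1 := by
  unfold sol
  have : Nat.card {b : Fin 0 → K // ∀ j, ∑ l, A j l * b l = 0} = 1 := by
    rw [Nat.card_eq_one_iff_unique]
    exact ⟨⟨fun a b => Subtype.ext (Subsingleton.elim _ _)⟩, ⟨⟨fun i => i.elim0, by simp⟩⟩⟩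
  rw [this]
  rfl

/-- the decomposition according to the first nonzero entry of the first row -/
theorem sol_decomp {m k : ℕ} {K : Type} [Field K] (A : Fin (m + 1) → Fin (k + 1) → K) :
    sol A = ∑ l : Fin (k + 1), (ind (∀ i ∈ Finset.univ.filter (fun i => i < l), A 0 i = 0) *
        (ind (A 0 l ≠ 0) * sol (fun (j : Fin m) (i : Fin k) =>
          A 0 l * A j.succ (l.succAbove i) - A j.succ l * A 0 (l.succAbove i)))) +
      ind (∀ i ∈ (Finset.univ : Finset (Fin (k + 1))), A 0 i = 0) *
        sol (fun (j : Fin m) => A j.succ) := by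
  classical
  by_cases h : ∀ l, A 0 l = 0
  · rw [Finset.sum_eq_zero, ind_pos (fun i _ => h i), sol_zero_row A h]
    · ring
    · intro l _
      rw [ind_neg (p := A 0 l ≠ 0) (fun h' => h' (h l))]
      ring
  · push Not at h
    obtain ⟨l1, hl1⟩ := h
    have hex : ∃ l, A 0 l ≠ 0 ∧ ∀ i, i < l → A 0 i = 0 := by
      have hne : (Finset.univ.filter (fun l => A 0 l ≠ 0)).Nonempty :=
        ⟨l1, Finset.mem_filter.2 ⟨Finset.mem_univ _, hl1⟩⟩
      refine ⟨Finset.min' _ hne, ?_, ?_⟩
      · exact (Finset.mem_filter.1 (Finset.min'_mem _ hne)).2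
      · intro i hi
        by_contra h'
        have := Finset.min'_le (Finset.univ.filter (fun l => A 0 l ≠ 0)) i
          (Finset.mem_filter.2 ⟨Finset.mem_univ _, h'⟩)
        exact absurd hi (not_lt.2 this)
    obtain ⟨l, hl, hl'⟩ := hex
    rw [Finset.sum_eq_single l, ind_neg (p := ∀ i ∈ Finset.univ, A 0 i = 0)
      (fun h' => hl (h' l (Finset.mem_univ _))), ind_pos (p := A 0 l ≠ 0) hl, ind_pos,
      sol_elim A l hl]
    · ring
    · intro i hi
      exact hl' i (Finset.mem_filter.1 hi).2
    · intro j _ hj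
      rcases lt_or_gt_of_ne hj with h1 | h1
      · rw [ind_neg (p := A 0 j ≠ 0) (fun h' => h' (hl' j h1))]
        ring
      · rw [ind_neg (p := ∀ i ∈ Finset.univ.filter (fun i => i < j), A 0 i = 0)]
        · ring
        · intro h'
          exact hl (h' l (Finset.mem_filter.2 ⟨Finset.mem_univ _, h1⟩))
    · intro h'
      exact absurd (Finset.mem_univ l) h'

/-- **Elimination of the linear unknowns.** -/
theorem AAdm.mul_sol {n : ℕ} (m : ℕ) : ∀ (k : ℕ)
    {h : (K : Type) → [Field K] → (Fin n → K) → ℤ} (_ : AAdm P h)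
    (M : Fin m → Fin k → MvPolynomial (Fin n) ℤ),
    AAdm P (fun K _ x => sol (fun j l => aeval x (M j l)) * h K x) := by
  induction m with
  | zero =>
    intro k h hh M
    refine (hh.pow k).congr fun K _ _ x => ?_
    rw [sol_no_row]
  | succ m ih =>
    intro k h hh M
    cases k with
    | zero =>
      refine hh.congr fun K _ _ x => ?_
      rw [sol_no_col, one_mul]
    | succ k =>
      have h1 : ∀ l : Fin (k + 1), AAdm P (fun K _ x =>
          ind (∀ i ∈ Finset.univ.filter (fun i => i < l), aeval x (M 0 i) = 0) *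
          (ind (aeval x (M 0 l) ≠ 0) * (sol (fun (j : Fin m) (i : Fin k) =>
            aeval x (M 0 l * M j.succ (l.succAbove i) - M j.succ l * M 0 (l.succAbove i))) *
              h K x))) := fun l =>
        ((ih k hh fun (j : Fin m) (i : Fin k) =>
          M 0 l * M j.succ (l.succAbove i) - M j.succ l * M 0 (l.succAbove i)).mul_ne
          (M 0 l)).mul_all _ _
      have h2 : AAdm P (fun K _ x => ind (∀ i ∈ (Finset.univ : Finset (Fin (k + 1))),
          aeval x (M 0 i) = 0) * (sol (fun (j : Fin m) l => aeval x (M j.succ l)) * h K x)) :=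
        (ih (k + 1) hh fun j => M j.succ).mul_all _ _
      refine ((AAdm.sum Finset.univ fun l _ => h1 l).add h2).congr fun K _ _ x => ?_
      rw [sol_decomp]
      simp only [map_sub, map_mul]
      rw [add_mul, Finset.sum_mul]
      congr 1
      · refine Finset.sum_congr rfl fun l _ => ?_
        ring
      · ring

end Pool.Agent.Helper28.OR
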