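import Pool.Agent.Helper28.OR.Elim

/-!
# From all systems to all groups with the same number of generators
-/

set_option autoImplicit false

namespace Pool.Agent.Helper28.OR

open MvPolynomial Pool.Agent.E8helper17.FZ

variable {P : ℕ}

/-- the product of the coordinates -/
noncomputable def prodX (n : ℕ) : MvPolynomial (Fin n) ℤ := ∏ i, X i

theorem aeval_prodX {n : ℕ} {K : Type} [Field K] (x : Fin n → K) :
    aeval x (prodX n) = ∏ i, x i := by
  simp [prodX]

/-- the value of a word is given by polynomials -/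
theorem word_poly {n : ℕ} (w : FreeGroup (Fin n)) :
    ∃ (M : ℕ) (Q : MvPolynomial (Fin n) ℤ) (D : Fin n → MvPolynomial (Fin n) ℤ),
      ∀ (K : Type) [Field K] (φ : Fin n → (K ≃ᵃ[K] K)),
        (∏ i, (slope (φ i) : K)) ^ M * slope (FreeGroup.lift φ w) =
          aeval (fun i => (slope (φ i) : K)) Q ∧
        (∏ i, (slope (φ i) : K)) ^ M * (FreeGroup.lift φ w) 0 =
          ∑ j, aeval (fun i => (slope (φ i) : K)) (D j) * φ j 0 := by
  classical
  induction w using FreeGroup.induction_on with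
  | C1 =>
    refine ⟨0, 1, 0, fun K _ φ => ⟨?_, ?_⟩⟩
    · rw [map_one, slope_one]
      simp
    · rw [map_one]
      simp
  | of i =>
    refine ⟨0, X i, Pi.single i 1, fun K _ φ => ⟨?_, ?_⟩⟩
    · rw [FreeGroup.lift_apply_of]
      simp
    · rw [FreeGroup.lift_apply_of, Finset.sum_eq_single i]
      · simp
      · intro j _ hj
        rw [Pi.single_eq_of_ne hj]
        simp
      · simp
  | inv_of i _ =>
    have hprod : ∀ (K : Type) [Field K] (φ : Fin n → (K ≃ᵃ[K] K)),
        (∏ i, (slope (φ i) : K)) * ((slope (φ i))⁻¹ : Kˣ) =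
          ∏ j ∈ Finset.univ.erase i, (slope (φ j) : K) := by
      intro K _ φ
      rw [← Finset.mul_prod_erase Finset.univ _ (Finset.mem_univ i), mul_right_comm]
      simp
    refine ⟨1, ∏ j ∈ Finset.univ.erase i, X j, Pi.single i (-∏ j ∈ Finset.univ.erase i, X j),
      fun K _ φ => ⟨?_, ?_⟩⟩
    · rw [map_inv, FreeGroup.lift_apply_of, slope_inv, pow_one, hprod]
      simp
    · rw [map_inv, FreeGroup.lift_apply_of, inv_zero', Finset.sum_eq_single i]
      · rw [Pi.single_eq_same, map_neg, map_prod]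
        simp only [aeval_X]
        rw [← hprod]
        ring
      · intro j _ hj
        rw [Pi.single_eq_of_ne hj]
        simp
      · simp
  | mul u v hu hv =>
    obtain ⟨M1, Q1, D1, h1⟩ := hu
    obtain ⟨M2, Q2, D2, h2⟩ := hv
    refine ⟨M1 + M2, Q1 * Q2, fun j => Q1 * D2 j + prodX n ^ M2 * D1 j, fun K _ φ => ⟨?_, ?_⟩⟩
    · rw [map_mul, slope_mul, map_mul, ← (h1 K φ).1, ← (h2 K φ).1, pow_add, Units.val_mul]
      ring
    · rw [map_mul, mul_zero']
      have e : ∑ j, aeval (fun i => (slope (φ i) : K)) (Q1 * D2 j + prodX n ^ M2 * D1 j) * φ j 0 =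
          aeval (fun i => (slope (φ i) : K)) Q1 *
            ∑ j, aeval (fun i => (slope (φ i) : K)) (D2 j) * φ j 0 +
          (∏ i, (slope (φ i) : K)) ^ M2 *
            ∑ j, aeval (fun i => (slope (φ i) : K)) (D1 j) * φ j 0 := by
        rw [Finset.mul_sum, Finset.mul_sum, ← Finset.sum_add_distrib]
        refine Finset.sum_congr rfl fun j _ => ?_
        rw [map_add, map_mul, map_mul, map_pow, aeval_prodX]
        ring
      rw [e, ← (h1 K φ).1, ← (h1 K φ).2, ← (h2 K φ).2, pow_add]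
      ring

/-- the conditions for `w = 1` as equations -/
theorem word_eqs {n : ℕ} (w : FreeGroup (Fin n)) :
    ∃ (E : MvPolynomial (Fin n) ℤ) (D : Fin n → MvPolynomial (Fin n) ℤ),
      ∀ (K : Type) [Field K] (φ : Fin n → (K ≃ᵃ[K] K)), FreeGroup.lift φ w = 1 ↔
        (aeval (fun i => (slope (φ i) : K)) E = 0 ∧
          ∑ j, aeval (fun i => (slope (φ i) : K)) (D j) * φ j 0 = 0) := by
  obtain ⟨M, Q, D, h⟩ := word_poly w
  refine ⟨Q - prodX n ^ M, D, fun K _ φ => ?_⟩
  have hp : (∏ i, (slope (φ i) : K)) ^ M ≠ 0 :=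
    pow_ne_zero _ (Finset.prod_ne_zero_iff.2 fun i _ => (slope (φ i)).ne_zero)
  rw [map_sub, map_pow, aeval_prodX, ← (h K φ).1, ← (h K φ).2]
  constructor
  · intro h1
    rw [h1, slope_one]
    refine ⟨by simp, ?_⟩
    show _ * (0 : K) = 0
    ring
  · rintro ⟨h1, h2⟩
    refine aff_ext ?_ ?_
    · rw [slope_one]
      ext
      rw [Units.val_one]
      refine mul_left_cancel₀ hp ?_
      linear_combination h1
    · show _ = (0 : K)
      rcases mul_eq_zero.1 h2 with h3 | h3
      · exact absurd h3 hp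
      · exact h3

/-- finitely many relations suffice for all fields (Hilbert's basis theorem) -/
theorem finite_relations {n : ℕ} (T : Set (FreeGroup (Fin n))) :
    ∃ T0 : Finset (FreeGroup (Fin n)), (T0 : Set (FreeGroup (Fin n))) ⊆ T ∧
      ∀ (K : Type) [Field K] (φ : Fin n → (K ≃ᵃ[K] K)),
        (∀ r ∈ T0, FreeGroup.lift φ r = 1) → ∀ r ∈ T, FreeGroup.lift φ r = 1 := by
  classical
  choose E D hED using fun w : FreeGroup (Fin n) => word_eqs w
  let G : FreeGroup (Fin n) → MvPolynomial (Fin n ⊕ Fin n) ℤ := fun w =>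
    ∑ j, rename Sum.inl (D w j) * X (Sum.inr j)
  let s : Set (MvPolynomial (Fin n ⊕ Fin n) ℤ) :=
    (fun w => rename Sum.inl (E w)) '' T ∪ G '' T
  have hfg : (Submodule.span (MvPolynomial (Fin n ⊕ Fin n) ℤ) s).FG :=
    IsNoetherian.noetherian _
  rw [Submodule.fg_span_iff_fg_span_finset_subset] at hfg
  obtain ⟨s', hs', hspan⟩ := hfg
  have hch : ∀ p ∈ s', ∃ w ∈ T, p = rename Sum.inl (E w) ∨ p = G w := by
    intro p hp
    rcases hs' hp with ⟨w, hw, rfl⟩ | ⟨w, hw, rfl⟩
    · exact ⟨w, hw, Or.inl rfl⟩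
    · exact ⟨w, hw, Or.inr rfl⟩
  choose! W hW1 hW2 using hch
  refine ⟨s'.image W, ?_, fun K _ φ hφ r hr => ?_⟩
  · intro w hw
    rw [Finset.coe_image] at hw
    obtain ⟨p, hp, rfl⟩ := hw
    exact hW1 p hp
  · let ev : MvPolynomial (Fin n ⊕ Fin n) ℤ →ₐ[ℤ] K :=
      aeval (Sum.elim (fun i => (slope (φ i) : K)) (fun j => φ j 0))
    have evE : ∀ w, ev (rename Sum.inl (E w)) = aeval (fun i => (slope (φ i) : K)) (E w) := by
      intro w
      show aeval _ (rename Sum.inl (E w)) = _
      rw [aeval_rename]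
      rfl
    have evG : ∀ w, ev (G w) = ∑ j, aeval (fun i => (slope (φ i) : K)) (D w j) * φ j 0 := by
      intro w
      show aeval _ (∑ j, rename Sum.inl (D w j) * X (Sum.inr j)) = _
      rw [map_sum]
      refine Finset.sum_congr rfl fun j _ => ?_
      rw [map_mul, aeval_rename, aeval_X]
      rfl
    have hzero : ∀ p ∈ s', ev p = 0 := by
      intro p hp
      have h1 := (hED (W p) K φ).1 (hφ (W p) (Finset.mem_image_of_mem W hp))
      rcases hW2 p hp with h | h
      · rw [h, evE]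
        exact h1.1
      · rw [h, evG]
        exact h1.2
    have hker : Submodule.span (MvPolynomial (Fin n ⊕ Fin n) ℤ) s ≤
        (RingHom.ker ev.toRingHom : Ideal (MvPolynomial (Fin n ⊕ Fin n) ℤ)) := by
      rw [hspan]
      refine Submodule.span_le.2 fun p hp => ?_
      exact hzero p hp
    have hE : ev (rename Sum.inl (E r)) = 0 :=
      hker (Submodule.subset_span (Or.inl ⟨r, hr, rfl⟩))
    have hG : ev (G r) = 0 := hker (Submodule.subset_span (Or.inr ⟨r, hr, rfl⟩))
    rw [hED r K φ]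
    exact ⟨(evE r).symm.trans hE, (evG r).symm.trans hG⟩

/-- **From all systems to all groups.** -/
theorem group_of_all {n : ℕ} (H : ∀ (r : ℕ) (f : Fin r → MvPolynomial (Fin n) ℤ),
      Continues P (fun K _ => (points f K : ℤ)))
    {Γ : Type} [Group Γ] (x : Fin n → Γ) (hx : Subgroup.closure (Set.range x) = ⊤) :
    Continues P (fun K _ => (Nat.card (Γ →* (K ≃ᵃ[K] K)) : ℤ)) := by
  classical
  obtain ⟨T0, hT0, hfin⟩ := finite_relations {r : FreeGroup (Fin n) | FreeGroup.lift x r = 1}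
  choose E D hED using fun w : FreeGroup (Fin n) => word_eqs w
  let rl : Fin T0.card → FreeGroup (Fin n) := fun i => (T0.equivFin.symm i).1
  have hrl : ∀ (p : FreeGroup (Fin n) → Prop), (∀ r ∈ T0, p r) ↔ ∀ i, p (rl i) := by
    intro p
    constructor
    · intro h i
      exact h _ (T0.equivFin.symm i).2
    · intro h r hr
      have := h (T0.equivFin ⟨r, hr⟩)
      simpa [rl] using this
  have hadm : AAdm P (n := n) (fun K _ y =>
      sol (fun (j : Fin T0.card) l => aeval y (D (rl j) l)) *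
        (ind (∀ i ∈ Finset.univ, aeval y (E (rl i)) = 0) * (ind (aeval y (prodX n) ≠ 0) * 1))) :=
    AAdm.mul_sol _ _ (((aadm_one H).mul_ne (prodX n)).mul_all Finset.univ fun i => E (rl i)) _
  refine continues_congr (hadm ∅) fun K _ _ _ => ?_
  rw [card_hom x hx]
  haveI := Fintype.ofFinite K
  have e1 : Nat.card {φ : Fin n → (K ≃ᵃ[K] K) //
      ∀ r, FreeGroup.lift x r = 1 → FreeGroup.lift φ r = 1} =
      Nat.card {z : (Fin n → K) × (Fin n → K) // (aeval z.1 (prodX n) ≠ 0 ∧
        ∀ i, aeval z.1 (E (rl i)) = 0) ∧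
        ∀ j, ∑ l, aeval z.1 (D (rl j) l) * z.2 l = 0} := by
    have hcond : ∀ φ : Fin n → (K ≃ᵃ[K] K),
        (∀ r, FreeGroup.lift x r = 1 → FreeGroup.lift φ r = 1) ↔
        ((∀ i, aeval (fun i => (slope (φ i) : K)) (E (rl i)) = 0) ∧
          ∀ j, ∑ l, aeval (fun i => (slope (φ i) : K)) (D (rl j) l) * φ l 0 = 0) := by
      intro φ
      have h1 : (∀ r, FreeGroup.lift x r = 1 → FreeGroup.lift φ r = 1) ↔
          ∀ r ∈ T0, FreeGroup.lift φ r = 1 :=
        ⟨fun h r hr => h r (hT0 hr), fun h r hr => hfin K φ h r hr⟩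
      rw [h1, hrl]
      constructor
      · intro h
        exact ⟨fun i => ((hED (rl i) K φ).1 (h i)).1, fun i => ((hED (rl i) K φ).1 (h i)).2⟩
      · rintro ⟨h2, h3⟩ i
        exact (hED (rl i) K φ).2 ⟨h2 i, h3 i⟩
    refine Nat.card_congr
      { toFun := fun φ => ⟨(fun i => (slope (φ.1 i) : K), fun i => φ.1 i 0), ⟨?_, ?_⟩, ?_⟩
        invFun := fun z => ⟨fun i => mkAff (Units.mk0 (z.1.1 i) ?_) (z.1.2 i), ?_⟩
        left_inv := ?_
        right_inv := ?_ }
    · rw [aeval_prodX]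
      exact Finset.prod_ne_zero_iff.2 fun i _ => (slope (φ.1 i)).ne_zero
    · exact ((hcond φ.1).1 φ.2).1
    · exact ((hcond φ.1).1 φ.2).2
    · have h := z.2.1.1
      rw [aeval_prodX] at h
      exact (Finset.prod_ne_zero_iff.1 h) i (Finset.mem_univ i)
    · have hz : ∀ i (hi : z.1.1 i ≠ 0), (slope (mkAff (Units.mk0 (z.1.1 i) hi) (z.1.2 i)) : K) =
          z.1.1 i := by
        intro i hi
        have := congrArg (fun y : Kˣ × K => (y.1 : K)) ((affEquiv K).apply_symm_apply
          (Units.mk0 (z.1.1 i) hi, z.1.2 i))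
        exact this
      have hz' : ∀ i (hi : z.1.1 i ≠ 0), mkAff (Units.mk0 (z.1.1 i) hi) (z.1.2 i) 0 =
          z.1.2 i := by
        intro i hi
        rw [mkAff_apply]
        simp
      rw [hcond]
      simp only [hz, hz']
      exact ⟨z.2.1.2, z.2.2⟩
    · rintro ⟨φ, hφ⟩
      refine Subtype.ext (funext fun i => ?_)
      refine aff_ext ?_ ?_
      · ext
        have := congrArg (fun y : Kˣ × K => (y.1 : K)) ((affEquiv K).apply_symm_apply
          (Units.mk0 (slope (φ i) : K) (slope (φ i)).ne_zero, φ i 0))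
        exact this
      · show mkAff _ _ 0 = _
        rw [mkAff_apply]
        simp
    · rintro ⟨⟨a, b⟩, ⟨ha, hE⟩, hD⟩
      refine Subtype.ext (Prod.ext (funext fun i => ?_) (funext fun i => ?_))
      · have hi : a i ≠ 0 := by
          rw [aeval_prodX] at ha
          exact (Finset.prod_ne_zero_iff.1 ha) i (Finset.mem_univ i)
        have := congrArg (fun y : Kˣ × K => (y.1 : K)) ((affEquiv K).apply_symm_apply
          (Units.mk0 (a i) hi, b i))
        exact this
      · show mkAff _ _ 0 = _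
        rw [mkAff_apply]
        simp
  rw [e1, Nat.card_congr (Equiv.subtypeProdEquivSigmaSubtype (fun (y b : Fin n → K) =>
    (aeval y (prodX n) ≠ 0 ∧ ∀ i, aeval y (E (rl i)) = 0) ∧
      ∀ j, ∑ l, aeval y (D (rl j) l) * b l = 0)), Nat.card_sigma, finsum_eq_sum_of_fintype]
  push_cast
  refine Finset.sum_congr rfl fun y _ => ?_
  by_cases hy : aeval y (prodX n) ≠ 0 ∧ ∀ i, aeval y (E (rl i)) = 0
  · rw [ind_pos (p := ∀ f ∈ (∅ : Finset (MvPolynomial (Fin n) ℤ)), aeval y f = 0) (by simp),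
      ind_pos (p := ∀ i ∈ Finset.univ, aeval y (E (rl i)) = 0) (fun i _ => hy.2 i),
      ind_pos (p := aeval y (prodX n) ≠ 0) hy.1]
    simp only [one_mul, mul_one]
    unfold sol
    congr 1
    exact Nat.card_congr (Equiv.subtypeEquivRight fun b => by simp [hy])
  · have h0 : Nat.card {b : Fin n → K // (aeval y (prodX n) ≠ 0 ∧
        ∀ i, aeval y (E (rl i)) = 0) ∧ ∀ j, ∑ l, aeval y (D (rl j) l) * b l = 0} = 0 := by
      haveI : IsEmpty {b : Fin n → K // (aeval y (prodX n) ≠ 0 ∧
        ∀ i, aeval y (E (rl i)) = 0) ∧ ∀ j, ∑ l, aeval y (D (rl j) l) * b l = 0} :=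
        ⟨fun b => hy b.2.1⟩
      exact Nat.card_of_isEmpty
    rw [h0]
    have h2 : ind (∀ i ∈ Finset.univ, aeval y (E (rl i)) = 0) *
        (ind (aeval y (prodX n) ≠ 0) * 1) = 0 := by
      rw [mul_one, ← ind_and]
      refine ind_neg fun h => hy ⟨h.2, fun i => h.1 i (Finset.mem_univ i)⟩
    rw [h2]
    simp

end Pool.Agent.Helper28.OR
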