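import Pool.Agent.Helper28.OR.Sums

/-!
# Homomorphisms into the affine group of the line
-/

set_option autoImplicit false

namespace Pool.Agent.Helper28.OR

open MvPolynomial Pool.Agent.E8helper17.FZ

/-- homomorphisms from a group generated by `x` -/
theorem card_hom {n : ℕ} {Γ : Type} [Group Γ] (x : Fin n → Γ)
    (hx : Subgroup.closure (Set.range x) = ⊤) (G : Type) [Group G] :
    Nat.card (Γ →* G) =
      Nat.card {φ : Fin n → G // ∀ r, FreeGroup.lift x r = 1 → FreeGroup.lift φ r = 1} := by
  have hsurj : Function.Surjective (FreeGroup.lift x) := by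
    rw [← MonoidHom.range_eq_top, FreeGroup.range_lift_eq_closure, hx]
  have hcomp : ∀ f : Γ →* G, FreeGroup.lift (fun i => f (x i)) = f.comp (FreeGroup.lift x) := by
    intro f
    ext i
    simp
  refine Nat.card_congr (Equiv.ofBijective
    (fun f : Γ →* G => (⟨fun i => f (x i), fun r hr => by rw [hcomp f]; simp [hr]⟩ :
      {φ : Fin n → G // ∀ r, FreeGroup.lift x r = 1 → FreeGroup.lift φ r = 1})) ⟨?_, ?_⟩)
  · intro f g h
    have h1 : ∀ i, f (x i) = g (x i) := fun i => congrFun (congrArg Subtype.val h) i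
    refine MonoidHom.eq_of_eqOn_dense hx ?_
    rintro _ ⟨i, rfl⟩
    exact h1 i
  · rintro ⟨φ, hφ⟩
    have hker : (FreeGroup.lift x).ker ≤ (FreeGroup.lift φ).ker := fun r hr => hφ r hr
    refine ⟨MonoidHom.liftOfSurjective (FreeGroup.lift x) hsurj ⟨FreeGroup.lift φ, hker⟩, ?_⟩
    refine Subtype.ext (funext fun i => ?_)
    have h := MonoidHom.liftOfRightInverse_comp_apply (FreeGroup.lift x)
      (Function.surjInv hsurj) (Function.rightInverse_surjInv hsurj) ⟨FreeGroup.lift φ, hker⟩
      (FreeGroup.of i)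
    rw [FreeGroup.lift_apply_of] at h
    refine h.trans ?_
    show FreeGroup.lift φ (FreeGroup.of i) = φ i
    rw [FreeGroup.lift_apply_of]

/-- homomorphisms from a group with one relator -/
theorem card_hom_one {n : ℕ} (w : FreeGroup (Fin n)) (G : Type) [Group G] :
    Nat.card (PresentedGroup {w} →* G) =
      Nat.card {φ : Fin n → G // FreeGroup.lift φ w = 1} := by
  rw [card_hom (Γ := PresentedGroup {w}) (fun i => PresentedGroup.of i)
    (PresentedGroup.closure_range_of _) G]
  refine Nat.card_congr (Equiv.subtypeEquivRight fun φ => ?_)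
  have hl : ∀ r, FreeGroup.lift (fun i => PresentedGroup.of (rels := {w}) i) r = 1 ↔
      r ∈ Subgroup.normalClosure {w} := by
    intro r
    have e : FreeGroup.lift (fun i => PresentedGroup.of (rels := {w}) i) =
        PresentedGroup.mk {w} := by
      ext i
      simp [PresentedGroup.of]
    rw [e]
    exact QuotientGroup.eq_one_iff r
  constructor
  · intro h
    refine h w ((hl w).2 (Subgroup.subset_normalClosure rfl))
  · intro h r hr
    have h1 : Subgroup.normalClosure {w} ≤ (FreeGroup.lift φ).ker := by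
      refine Subgroup.normalClosure_le_normal ?_
      rintro _ rfl
      exact h
    exact h1 ((hl r).1 hr)

/-- `n`-tuples of affine transformations -/
def tupleEquiv (n : ℕ) (K : Type) [Field K] :
    (Fin n → (K ≃ᵃ[K] K)) ≃ (Fin n → Kˣ) × (Fin n → K) :=
  ((Equiv.refl (Fin n)).arrowCongr (affEquiv K)).trans (Equiv.arrowProdEquivProdArrow _ _ _)

theorem tupleEquiv_fst {n : ℕ} {K : Type} [Field K] (φ : Fin n → (K ≃ᵃ[K] K)) (i : Fin n) :
    (tupleEquiv n K φ).1 i = slope (φ i) := rfl

theorem tupleEquiv_snd {n : ℕ} {K : Type} [Field K] (φ : Fin n → (K ≃ᵃ[K] K)) (i : Fin n) :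
    (tupleEquiv n K φ).2 i = φ i 0 := rfl

/-- the coefficients of the linear equation -/
noncomputable def coef {m : ℕ} {K : Type} [Field K] (g : MvPolynomial (Fin (m + 2)) ℤ)
    (a : Fin (m + 2) → Kˣ) : Fin (m + 2) → K :=
  aeval (fun i => (a i : K)) g • (Pi.single 0 (1 - (a 1 : K)) + Pi.single 1 ((a 0 : K) - 1))

theorem coef_eq_zero {m : ℕ} {K : Type} [Field K] (g : MvPolynomial (Fin (m + 2)) ℤ)
    (a : Fin (m + 2) → Kˣ) : coef g a = 0 ↔
      aeval (fun i => (a i : K)) g = 0 ∨ (a 0 = 1 ∧ a 1 = 1) := by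
  unfold coef
  rw [smul_eq_zero]
  refine or_congr_right ?_
  constructor
  · intro h
    have h0 := congrFun h 0
    have h1 := congrFun h 1
    simp at h0 h1
    refine ⟨Units.ext ?_, Units.ext ?_⟩
    · rw [Units.val_one]
      linear_combination h1
    · rw [Units.val_one]
      linear_combination -h0
  · rintro ⟨h0, h1⟩
    rw [h0, h1]
    simp

/-- **The number of homomorphisms.** -/
theorem exists_word_card {m : ℕ} (g : MvPolynomial (Fin (m + 2)) ℤ) :
    ∃ w ∈ commutator (FreeGroup (Fin (m + 2))), ∀ (K : Type) [Field K] [Finite K],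
      (Nat.card (PresentedGroup {w} →* (K ≃ᵃ[K] K)) : ℤ) =
        (Nat.card K : ℤ) ^ (m + 1) * ((Nat.card K : ℤ) - 1) ^ (m + 2) +
        (Nat.card K : ℤ) ^ (m + 1) * ((Nat.card K : ℤ) - 1) *
          Nat.card {a : Fin (m + 2) → Kˣ //
            aeval (fun i => (a i : K)) g = 0 ∨ (a 0 = 1 ∧ a 1 = 1)} := by
  obtain ⟨w, hwc, hw⟩ := exists_word g
  refine ⟨w, hwc, fun K _ _ => ?_⟩
  rw [card_hom_one]
  have e1 : Nat.card {φ : Fin (m + 2) → (K ≃ᵃ[K] K) // FreeGroup.lift φ w = 1} =
      Nat.card {z : (Fin (m + 2) → Kˣ) × (Fin (m + 2) → K) // ∑ i, z.2 i * coef g z.1 i = 0} := by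
    refine Nat.card_congr ((tupleEquiv (m + 2) K).subtypeEquiv fun φ => ?_)
    rw [hw K φ]
    have h1 : (1 : K ≃ᵃ[K] K) = AffineEquiv.constVAdd K K 0 := by
      ext x
      simp
    have h2 : ∀ u v : K, AffineEquiv.constVAdd K K u = AffineEquiv.constVAdd K K v ↔ u = v := by
      intro u v
      constructor
      · intro h
        have := congrArg (fun e : K ≃ᵃ[K] K => e 0) h
        simpa using this
      · rintro rfl
        rfl
    rw [h1, h2]
    have h3 : ∑ i, (tupleEquiv (m + 2) K φ).2 i * coef g (tupleEquiv (m + 2) K φ).1 i =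
        aeval (fun i => (slope (φ i) : K)) g * tau φ := by
      unfold coef
      simp only [Pi.smul_apply, Pi.add_apply, smul_eq_mul, mul_add, Finset.sum_add_distrib,
        tupleEquiv_fst, tupleEquiv_snd]
      rw [Finset.sum_eq_single 0, Finset.sum_eq_single 1]
      · simp only [Pi.single_eq_same]
        unfold tau
        ring
      · intro i _ hi
        rw [Pi.single_eq_of_ne hi]
        ring
      · simp
      · intro i _ hi
        rw [Pi.single_eq_of_ne hi]
        ring
      · simp
    rw [h3]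
  rw [e1]
  have hq : (Nat.card K : ℤ) ≠ 0 := by exact_mod_cast Nat.card_pos.ne'
  haveI := Fintype.ofFinite K
  haveI := Fintype.ofFinite Kˣ
  classical
  have h4 := y_trick (K := K) (X := Fin (m + 2) → Kˣ) (ι := Fin (m + 2)) (fun a => coef g a)
  rw [Fintype.card_fin, card_torus, Nat.card_congr (Equiv.subtypeEquivRight
    (fun a => coef_eq_zero g a))] at h4
  refine mul_left_cancel₀ hq ?_
  rw [h4]
  ring

end Pool.Agent.Helper28.OR
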