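import Pool.Agent.Helper28.OR.Back
import Pool.Agent.Helper28.OR.Fwd

/-!
# One-relator groups and all systems, conclusion
-/

set_option autoImplicit false

namespace Pool.Agent.Helper28.OR

open MvPolynomial Pool.Agent.E8helper17.FZ

variable {P : ℕ}

/-- sums over the complements of hypersurfaces of the affine space -/
def HAdm (P : ℕ) {n : ℕ} (h : (K : Type) → [Field K] → (Fin n → K) → ℤ) : Prop :=
  ∀ g : MvPolynomial (Fin n) ℤ,
    Continues P (fun K _ => ∑ᶠ x : Fin n → K, ind (aeval x g ≠ 0) * h K x)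

theorem HAdm.congr {n : ℕ} {h h' : (K : Type) → [Field K] → (Fin n → K) → ℤ} (hh : HAdm P h)
    (e : ∀ (K : Type) [Field K] (x : Fin n → K), h K x = h' K x) : HAdm P h' := by
  intro g
  refine continues_congr (hh g) fun K _ _ _ => ?_
  refine finsum_congr fun a => ?_
  rw [e K a]

theorem HAdm.mul_eq {n : ℕ} {h : (K : Type) → [Field K] → (Fin n → K) → ℤ} (hh : HAdm P h)
    (f : MvPolynomial (Fin n) ℤ) :
    HAdm P (fun K _ x => ind (aeval x f = 0) * h K x) := by
  intro g
  refine continues_congr (cont_sub (hh g) (hh (g * f))) fun K _ _ _ => ?_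
  rw [← fs_sub]
  refine finsum_congr fun x => ?_
  have e : aeval x (g * f) ≠ 0 ↔ (aeval x g ≠ 0 ∧ ¬ (aeval x f = 0)) := by
    rw [map_mul, mul_ne_zero_iff]
  rw [e, ind_and, ind_not (aeval x f = 0)]
  ring

/-- from hypersurfaces to all systems in the same number of variables -/
theorem all_of_hyper {n : ℕ} (H : ∀ g : MvPolynomial (Fin n) ℤ,
      Continues P (fun K _ => (points (fun _ : Fin 1 => g) K : ℤ)))
    (r : ℕ) (f : Fin r → MvPolynomial (Fin n) ℤ) :
    Continues P (fun K _ => (points f K : ℤ)) := by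
  classical
  have hp : ∀ (K : Type) [Field K] [Finite K] (g : MvPolynomial (Fin n) ℤ),
      (points (fun _ : Fin 1 => g) K : ℤ) = ∑ᶠ x : Fin n → K, ind (aeval x g = 0) := by
    intro K _ _ g
    unfold points
    rw [card_eq_sum]
    refine finsum_congr fun x => ?_
    congr 1
    simp
  have h1 : HAdm P (n := n) (fun _ _ _ => 1) := by
    intro g
    refine continues_congr (cont_sub (H 0) (H g)) fun K _ _ _ => ?_
    rw [hp, hp, ← fs_sub]
    refine finsum_congr fun x => ?_
    have e : ind (aeval x g ≠ 0) = 1 - ind (aeval x g = 0) := ind_not _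
    rw [e, ind_pos (p := aeval x (0 : MvPolynomial (Fin n) ℤ) = 0) (map_zero _), mul_one]
  have key : ∀ s : Finset (Fin r), HAdm P (n := n) (fun K _ x => ind (∀ j ∈ s, aeval x (f j) = 0)) := by
    intro s
    induction s using Finset.induction_on with
    | empty =>
      refine h1.congr fun K _ a => (ind_pos ?_).symm
      simp
    | insert j s _ ih =>
      refine (ih.mul_eq (f j)).congr fun K _ a => ?_
      rw [← ind_and]
      congr 1
      rw [Finset.forall_mem_insert]
  refine continues_congr (key Finset.univ 1) fun K _ _ _ => ?_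
  unfold points
  rw [card_eq_sum]
  refine finsum_congr fun x => ?_
  have e : aeval x (1 : MvPolynomial (Fin n) ℤ) ≠ 0 := by simp
  rw [ind_pos e, one_mul]
  congr 1
  simp

/-- **The equivalence.** -/
theorem tfae_groups (m P : ℕ) : List.TFAE [
    ∀ (r : ℕ) (f : Fin r → MvPolynomial (Fin (m + 2)) ℤ), Continues P (fun K _ => (points f K : ℤ)),
    ∀ g : MvPolynomial (Fin (m + 2)) ℤ, Continues P (fun K _ => (points (fun _ : Fin 1 => g) K : ℤ)),
    ∀ w ∈ commutator (FreeGroup (Fin (m + 2))),
      Continues P (fun K _ => (Nat.card (PresentedGroup {w} →* (K ≃ᵃ[K] K)) : ℤ)),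
    ∀ w : FreeGroup (Fin (m + 2)),
      Continues P (fun K _ => (Nat.card (PresentedGroup {w} →* (K ≃ᵃ[K] K)) : ℤ)),
    ∀ (Γ : Type) [Group Γ] (x : Fin (m + 2) → Γ), Subgroup.closure (Set.range x) = ⊤ →
      Continues P (fun K _ => (Nat.card (Γ →* (K ≃ᵃ[K] K)) : ℤ))] := by
  tfae_have 1 → 2 := fun h g => h 1 fun _ => g
  tfae_have 2 → 1 := fun h r f => all_of_hyper h r f
  tfae_have 3 → 1 := fun h r f => all_of_one h r f
  tfae_have 1 → 5 := fun h Γ _ x hx => group_of_all h x hx
  tfae_have 5 → 4 := fun h w => h (PresentedGroup {w}) (fun i => PresentedGroup.of i)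
    (PresentedGroup.closure_range_of _)
  tfae_have 4 → 3 := fun h w _ => h w
  tfae_finish

end Pool.Agent.Helper28.OR
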