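import Pool.Agent.Helper28.OR.Word
import Pool.Graph.R_pool_sql_team_seeded_b677cdb8.E8helper17.FZ.Gen

/-!
# Sums of indicator functions and continuation
-/

set_option autoImplicit false

namespace Pool.Agent.Helper28.OR

open MvPolynomial Pool.Agent.E8helper17.FZ

/-- the indicator of a proposition -/
noncomputable def ind (p : Prop) : ℤ := by
  classical exact if p then 1 else 0

theorem ind_pos {p : Prop} (h : p) : ind p = 1 := by simp [ind, h]
theorem ind_neg {p : Prop} (h : ¬ p) : ind p = 0 := by simp [ind, h]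
theorem ind_and (p r : Prop) : ind (p ∧ r) = ind p * ind r := by
  by_cases hp : p <;> by_cases hr : r <;> simp [ind, hp, hr]
theorem ind_not (p : Prop) : ind (¬ p) = 1 - ind p := by
  by_cases hp : p <;> simp [ind, hp]
theorem ind_or (p r : Prop) : ind (p ∨ r) = ind p + ind r - ind p * ind r := by
  by_cases hp : p <;> by_cases hr : r <;> simp [ind, hp, hr]
theorem ind_nonneg (p : Prop) : 0 ≤ ind p := by
  by_cases hp : p <;> simp [ind, hp]
theorem ind_le_one (p : Prop) : ind p ≤ 1 := by
  by_cases hp : p <;> simp [ind, hp]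

theorem card_eq_sum {X : Type} [Finite X] (p : X → Prop) :
    (Nat.card {x : X // p x} : ℤ) = ∑ᶠ x, ind (p x) := by
  classical
  haveI := Fintype.ofFinite X
  rw [finsum_eq_sum_of_fintype, Nat.card_eq_fintype_card, Fintype.card_subtype,
    Finset.card_eq_sum_ones, Finset.sum_filter]
  push_cast
  refine Finset.sum_congr rfl fun x _ => ?_
  by_cases h : p x <;> simp [ind, h]

theorem card_all (X : Type) [Finite X] : ∑ᶠ _ : X, (1 : ℤ) = Nat.card X := by
  haveI := Fintype.ofFinite X
  rw [finsum_eq_sum_of_fintype]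
  simp

section
variable {X : Type} [Finite X]

theorem fs_add (f g : X → ℤ) : ∑ᶠ x, (f x + g x) = ∑ᶠ x, f x + ∑ᶠ x, g x := by
  haveI := Fintype.ofFinite X
  simp only [finsum_eq_sum_of_fintype]
  exact Finset.sum_add_distrib

theorem fs_sub (f g : X → ℤ) : ∑ᶠ x, (f x - g x) = ∑ᶠ x, f x - ∑ᶠ x, g x := by
  haveI := Fintype.ofFinite X
  simp only [finsum_eq_sum_of_fintype]
  exact Finset.sum_sub_distrib _ _

theorem fs_mul (c : ℤ) (f : X → ℤ) : ∑ᶠ x, (c * f x) = c * ∑ᶠ x, f x := by
  haveI := Fintype.ofFinite X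
  simp only [finsum_eq_sum_of_fintype]
  exact (Finset.mul_sum _ _ _).symm

theorem fs_sum {ι : Type} (s : Finset ι) (f : ι → X → ℤ) :
    ∑ᶠ x, (∑ i ∈ s, f i x) = ∑ i ∈ s, ∑ᶠ x, f i x := by
  haveI := Fintype.ofFinite X
  simp only [finsum_eq_sum_of_fintype]
  exact Finset.sum_comm

end

/-- the number of units -/
theorem card_units (K : Type) [Field K] [Finite K] : (Nat.card Kˣ : ℤ) = (Nat.card K : ℤ) - 1 := by
  classical
  haveI := Fintype.ofFinite K
  rw [Nat.card_eq_fintype_card, Nat.card_eq_fintype_card, Fintype.card_units]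
  have : 1 ≤ Fintype.card K := Fintype.card_pos
  push_cast [this]
  ring

theorem card_torus (n : ℕ) (K : Type) [Field K] [Finite K] :
    (Nat.card (Fin n → Kˣ) : ℤ) = ((Nat.card K : ℤ) - 1) ^ n := by
  rw [Nat.card_fun, Nat.card_eq_fintype_card (α := Fin n), Fintype.card_fin, ← card_units]
  push_cast
  rfl

theorem card_aff (n : ℕ) (K : Type) [Field K] [Finite K] :
    (Nat.card (Fin n → K) : ℤ) = (Nat.card K : ℤ) ^ n := by
  rw [Nat.card_fun, Nat.card_eq_fintype_card (α := Fin n), Fintype.card_fin]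
  push_cast
  rfl

variable {P : ℕ}

theorem cont_sub {N N' : (K : Type) → [Field K] → ℤ} (h : Continues P N) (h' : Continues P N') :
    Continues P (fun K _ => N K - N' K) := by
  refine continues_congr (h.add h'.neg) fun K _ _ _ => ?_
  ring

/-- division by a monic polynomial, in a convenient form -/
theorem cont_div {N M : (K : Type) → [Field K] → ℤ} {n : ℕ}
    (hN : ∀ (K : Type) [Field K] [Finite K], |N K| ≤ (Nat.card K : ℤ) ^ n)
    (B : Polynomial ℤ) (hB : B.Monic) (hM : Continues P M)
    (h : ∀ (K : Type) [Field K] [Finite K], B.eval (Nat.card K : ℤ) * N K = M K) :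
    Continues P N :=
  continues_of_monic (growth_of_le hN) B hB (continues_congr hM fun K _ _ _ => (h K).symm)

/-- all polynomials in `q`, if `1` is there -/
theorem cont_poly (h : Continues P (fun _ _ => 1)) (A : Polynomial ℤ) :
    Continues P (fun K _ => A.eval (Nat.card K : ℤ)) :=
  continues_congr (h.poly_mul A) fun K _ _ _ => by ring

end Pool.Agent.Helper28.OR
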