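import Pool.Agent.Helper28.OR.Homs

/-!
# From one-relator groups to all systems in the same number of variables
-/

set_option autoImplicit false

namespace Pool.Agent.Helper28.OR

open MvPolynomial Pool.Agent.E8helper17.FZ

variable {P : ℕ}

/-- the value of a polynomial at a point of the torus -/
noncomputable def tv {n : ℕ} {K : Type} [Field K] (a : Fin n → Kˣ) (g : MvPolynomial (Fin n) ℤ) : K :=
  aeval (fun i => (a i : K)) g

/-- the sum of a function over the torus -/
noncomputable def tsum {n : ℕ} (h : (K : Type) → [Field K] → (Fin n → Kˣ) → ℤ) :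
    (K : Type) → [Field K] → ℤ := fun K _ => ∑ᶠ a : Fin n → Kˣ, h K a

/-- `h` is admissible: the sums of `h` over the complements of hypersurfaces of the torus have
continuations -/
def TAdm (P : ℕ) {n : ℕ} (h : (K : Type) → [Field K] → (Fin n → Kˣ) → ℤ) : Prop :=
  ∀ g : MvPolynomial (Fin n) ℤ, Continues P (tsum fun K _ a => ind (tv a g ≠ 0) * h K a)

theorem TAdm.mul_eq {n : ℕ} {h : (K : Type) → [Field K] → (Fin n → Kˣ) → ℤ} (hh : TAdm P h)
    (f : MvPolynomial (Fin n) ℤ) :
    TAdm P (fun K _ a => ind (tv a f = 0) * h K a) := by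
  intro g
  refine continues_congr (cont_sub (hh g) (hh (g * f))) fun K _ _ _ => ?_
  show (∑ᶠ a : Fin n → Kˣ, ind (tv a g ≠ 0) * h K a) -
    (∑ᶠ a : Fin n → Kˣ, ind (tv a (g * f) ≠ 0) * h K a) =
    ∑ᶠ a : Fin n → Kˣ, ind (tv a g ≠ 0) * (ind (tv a f = 0) * h K a)
  rw [← fs_sub]
  refine finsum_congr fun a => ?_
  have e : tv a (g * f) ≠ 0 ↔ (tv a g ≠ 0 ∧ ¬ (tv a f = 0)) := by
    unfold tv
    rw [map_mul, mul_ne_zero_iff]
  rw [e, ind_and, ind_not (tv a f = 0)]
  ring

theorem TAdm.congr {n : ℕ} {h h' : (K : Type) → [Field K] → (Fin n → Kˣ) → ℤ} (hh : TAdm P h)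
    (e : ∀ (K : Type) [Field K] (a : Fin n → Kˣ), h K a = h' K a) : TAdm P h' := by
  intro g
  refine continues_congr (hh g) fun K _ _ _ => ?_
  unfold tsum
  refine finsum_congr fun a => ?_
  show ind (tv a g ≠ 0) * h K a = ind (tv a g ≠ 0) * h' K a
  rw [e K a]

theorem TAdm.all {n r : ℕ} (h1 : TAdm P (n := n) (fun _ _ _ => 1))
    (f : Fin r → MvPolynomial (Fin n) ℤ) :
    Continues P (fun K _ => (Nat.card {a : Fin n → Kˣ // ∀ j, tv a (f j) = 0} : ℤ)) := by
  classical
  have key : ∀ s : Finset (Fin r), TAdm P (n := n) (fun K _ a => ind (∀ j ∈ s, tv a (f j) = 0)) := by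
    intro s
    induction s using Finset.induction_on with
    | empty =>
      refine h1.congr fun K _ a => (ind_pos ?_).symm
      simp
    | insert j s _ ih =>
      refine (ih.mul_eq (f j)).congr fun K _ a => ?_
      rw [← ind_and]
      congr 1
      rw [Finset.forall_mem_insert]
  refine continues_congr (key Finset.univ 1) fun K _ _ _ => ?_
  rw [card_eq_sum]
  unfold tsum
  refine finsum_congr fun a => ?_
  show ind (tv a (1 : MvPolynomial (Fin n) ℤ) ≠ 0) * ind (∀ j ∈ Finset.univ, tv a (f j) = 0) = _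
  have e : tv a (1 : MvPolynomial (Fin n) ℤ) ≠ 0 := by simp [tv]
  rw [ind_pos e, one_mul]
  congr 1
  simp

/-- the polynomial with the variables outside `S` put equal to zero -/
noncomputable def cutp {n : ℕ} (S : Finset (Fin n)) (f : MvPolynomial (Fin n) ℤ) :
    MvPolynomial (Fin n) ℤ := by
  classical exact bind₁ (fun i => if i ∈ S then X i else 0) f

theorem tv_cutp {n : ℕ} {K : Type} [Field K] [DecidableEq (Fin n)] (S : Finset (Fin n))
    (f : MvPolynomial (Fin n) ℤ) (a : Fin n → Kˣ) :
    tv a (cutp S f) = aeval (fun i => if i ∈ S then (a i : K) else 0) f := by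
  unfold tv cutp
  rw [aeval_bind₁]
  congr 1
  refine algHom_ext fun i => ?_
  rw [aeval_X, aeval_X]
  split_ifs <;> simp

/-- points with given support -/
theorem card_cut {n r : ℕ} (K : Type) [Field K] [Finite K] (S : Finset (Fin n))
    (f : Fin r → MvPolynomial (Fin n) ℤ) :
    ((Nat.card K : ℤ) - 1) ^ (n - S.card) *
      (Nat.card {x : Fin n → K // (∀ i, x i ≠ 0 ↔ i ∈ S) ∧ ∀ j, aeval x (f j) = 0} : ℤ) =
      (Nat.card {a : Fin n → Kˣ // ∀ j, tv a (cutp S (f j)) = 0} : ℤ) := by
  classical
  have e : ((Nat.card K : ℤ) - 1) ^ (n - S.card) = (Nat.card ({i // i ∉ S} → Kˣ) : ℤ) := by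
    rw [Nat.card_fun, Nat.card_eq_fintype_card (α := {i // i ∉ S}), Fintype.card_subtype_compl,
      Fintype.card_fin, ← card_units]
    push_cast
    congr 2
    simp
  rw [e, ← Nat.cast_mul, ← Nat.card_prod]
  congr 1
  refine Nat.card_congr (Equiv.symm ?_)
  refine
    { toFun := fun a => (fun i => a.1 i.1, ⟨fun i => if i ∈ S then (a.1 i : K) else 0, ?_, ?_⟩)
      invFun := fun y => ⟨fun i => if h : i ∈ S then Units.mk0 (y.2.1 i) ((y.2.2.1 i).2 h)
        else y.1 ⟨i, h⟩, ?_⟩
      left_inv := ?_
      right_inv := ?_ }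
  · intro i
    by_cases h : i ∈ S
    · simp [h]
    · simp [h]
  · intro j
    have := a.2 j
    rwa [tv_cutp] at this
  · intro j
    rw [tv_cutp]
    refine Eq.trans ?_ (y.2.2.2 j)
    congr 1
    refine congrArg _ (funext fun i => ?_)
    by_cases h : i ∈ S
    · simp [h]
    · simp only [h, if_false]
      by_contra h'
      exact h ((y.2.2.1 i).1 (Ne.symm h'))
  · rintro ⟨a, ha⟩
    refine Subtype.ext (funext fun i => ?_)
    by_cases h : i ∈ S
    · simp only [h, dif_pos, if_true]
      ext
      simp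
    · simp only [h, dif_neg, not_false_iff]
  · rintro ⟨c, x, hx1, hx2⟩
    refine Prod.ext (funext fun i => ?_) (Subtype.ext (funext fun i => ?_))
    · have h := i.2
      simp only [h, dif_neg, not_false_iff]
    · by_cases h : i ∈ S
      · simp [h]
      · simp only [h, if_false]
        by_contra h'
        exact h ((hx1 i).1 (Ne.symm h'))

/-- from the torus to the affine space -/
theorem all_of_torus {n : ℕ}
    (h : ∀ (r : ℕ) (f : Fin r → MvPolynomial (Fin n) ℤ),
      Continues P (fun K _ => (Nat.card {a : Fin n → Kˣ // ∀ j, tv a (f j) = 0} : ℤ)))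
    (r : ℕ) (f : Fin r → MvPolynomial (Fin n) ℤ) :
    Continues P (fun K _ => (points f K : ℤ)) := by
  classical
  have h1 : ∀ S : Finset (Fin n), Continues P (fun K _ =>
      (Nat.card {x : Fin n → K // (∀ i, x i ≠ 0 ↔ i ∈ S) ∧ ∀ j, aeval x (f j) = 0} : ℤ)) := by
    intro S
    refine cont_div (n := n) (fun K _ _ => ?_) ((Polynomial.X - Polynomial.C 1) ^ (n - S.card))
      ((Polynomial.monic_X_sub_C 1).pow _) (h r fun j => cutp S (f j)) fun K _ _ => ?_
    · rw [abs_of_nonneg (by positivity), ← card_aff]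
      exact_mod_cast Finite.card_subtype_le _
    · rw [← card_cut]
      simp
  refine continues_congr (Continues.sum (Finset.univ : Finset (Finset (Fin n)))
    fun S _ => h1 S) fun K _ _ _ => ?_
  unfold points
  rw [card_eq_sum]
  simp_rw [card_eq_sum]
  rw [← fs_sum]
  refine finsum_congr fun x => ?_
  have e : ∀ S : Finset (Fin n), ind ((∀ i, x i ≠ 0 ↔ i ∈ S) ∧ ∀ j, aeval x (f j) = 0) =
      if S = Finset.univ.filter (fun i => x i ≠ 0) then ind (∀ j, aeval x (f j) = 0) else 0 := by
    intro S
    rw [ind_and]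
    by_cases hS : S = Finset.univ.filter (fun i => x i ≠ 0)
    · rw [if_pos hS, ind_pos (by rw [hS]; simp), one_mul]
    · rw [if_neg hS, ind_neg, zero_mul]
      intro h2
      refine hS (Finset.ext fun i => ?_)
      rw [← h2 i]
      simp
  rw [Finset.sum_congr rfl fun S _ => e S, Finset.sum_ite_eq' Finset.univ]
  simp

/-- put the first two coordinates equal to `1` -/
def one01 {m : ℕ} {K : Type} [Field K] (a : Fin (m + 2) → Kˣ) : Fin (m + 2) → Kˣ :=
  Function.update (Function.update a 0 1) 1 1

noncomputable def onep {m : ℕ} (g : MvPolynomial (Fin (m + 2)) ℤ) :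
    MvPolynomial (Fin (m + 2)) ℤ :=
  bind₁ (Function.update (Function.update X 0 1) 1 1) g

theorem tv_onep {m : ℕ} {K : Type} [Field K] (g : MvPolynomial (Fin (m + 2)) ℤ)
    (a : Fin (m + 2) → Kˣ) : tv a (onep g) = tv (one01 a) g := by
  unfold tv onep one01
  rw [aeval_bind₁]
  congr 1
  refine algHom_ext fun i => ?_
  rw [aeval_X, aeval_X]
  by_cases h1 : i = 1
  · subst h1
    simp
  · rw [Function.update_of_ne h1, Function.update_of_ne h1]
    by_cases h0 : i = 0
    · subst h0
      simp
    · rw [Function.update_of_ne h0, Function.update_of_ne h0, aeval_X]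

theorem card_onep {m : ℕ} (K : Type) [Field K] [Finite K] (g : MvPolynomial (Fin (m + 2)) ℤ) :
    (Nat.card {a : Fin (m + 2) → Kˣ // tv a (onep g) = 0} : ℤ) = ((Nat.card K : ℤ) - 1) ^ 2 *
      Nat.card {a : Fin (m + 2) → Kˣ // (a 0 = 1 ∧ a 1 = 1) ∧ tv a g = 0} := by
  have e : ((Nat.card K : ℤ) - 1) ^ 2 = (Nat.card (Kˣ × Kˣ) : ℤ) := by
    rw [Nat.card_prod, pow_two, ← card_units]
    push_cast
    rfl
  rw [e, ← Nat.cast_mul, ← Nat.card_prod]
  congr 1
  have hne : (1 : Fin (m + 2)) ≠ 0 := by simp
  refine Nat.card_congr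
    { toFun := fun a => ((a.1 0, a.1 1), ⟨one01 a.1, ⟨?_, ?_⟩, ?_⟩)
      invFun := fun y => ⟨Function.update (Function.update y.2.1 0 y.1.1) 1 y.1.2, ?_⟩
      left_inv := ?_
      right_inv := ?_ }
  · unfold one01
    rw [Function.update_of_ne hne.symm, Function.update_self]
  · unfold one01
    rw [Function.update_self]
  · rw [← tv_onep]
    exact a.2
  · rw [tv_onep]
    refine Eq.trans ?_ y.2.2.2
    congr 1
    funext i
    unfold one01
    by_cases h1 : i = 1
    · subst h1
      rw [Function.update_self, y.2.2.1.2]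
    · rw [Function.update_of_ne h1]
      by_cases h0 : i = 0
      · subst h0
        rw [Function.update_self, y.2.2.1.1]
      · rw [Function.update_of_ne h0, Function.update_of_ne h1, Function.update_of_ne h0]
  · rintro ⟨a, ha⟩
    refine Subtype.ext (funext fun i => ?_)
    show Function.update (Function.update (one01 a) 0 (a 0)) 1 (a 1) i = a i
    unfold one01
    by_cases h1 : i = 1
    · subst h1
      rw [Function.update_self]
    · rw [Function.update_of_ne h1]
      by_cases h0 : i = 0
      · subst h0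
        rw [Function.update_self]
      · rw [Function.update_of_ne h0, Function.update_of_ne h1, Function.update_of_ne h0]
  · rintro ⟨⟨u, v⟩, a, ⟨ha0, ha1⟩, ha⟩
    refine Prod.ext (Prod.ext ?_ ?_) (Subtype.ext (funext fun i => ?_))
    · show Function.update (Function.update a 0 u) 1 v 0 = u
      rw [Function.update_of_ne hne.symm, Function.update_self]
    · show Function.update (Function.update a 0 u) 1 v 1 = v
      rw [Function.update_self]
    · show one01 (Function.update (Function.update a 0 u) 1 v) i = a i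
      unfold one01
      by_cases h1 : i = 1
      · subst h1
        rw [Function.update_self, ha1]
      · rw [Function.update_of_ne h1]
        by_cases h0 : i = 0
        · subst h0
          rw [Function.update_self, ha0]
        · rw [Function.update_of_ne h0, Function.update_of_ne h1, Function.update_of_ne h0]

/-- the number of the points of the torus with the first two coordinates equal to `1` -/
theorem card_one01 {m : ℕ} (K : Type) [Field K] [Finite K] :
    (Nat.card {a : Fin (m + 2) → Kˣ // a 0 = 1 ∧ a 1 = 1} : ℤ) = ((Nat.card K : ℤ) - 1) ^ m := by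
  rw [← card_torus]
  congr 1
  have hne : (1 : Fin (m + 2)) ≠ 0 := by simp
  refine Nat.card_congr
    { toFun := fun a i => a.1 i.succ.succ
      invFun := fun c => ⟨Fin.cons 1 (Fin.cons 1 c), by simp, by
        rw [show (1 : Fin (m + 2)) = Fin.succ 0 from rfl, Fin.cons_succ, Fin.cons_zero]⟩
      left_inv := ?_
      right_inv := ?_ }
  · rintro ⟨a, ha0, ha1⟩
    refine Subtype.ext (funext fun i => ?_)
    refine Fin.cases ?_ (fun i => ?_) i
    · simp [ha0]
    · refine Fin.cases ?_ (fun i => ?_) i
      · simp only [Fin.cons_succ, Fin.cons_zero]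
        exact ha1.symm
      · simp
  · intro c
    funext i
    simp

end Pool.Agent.Helper28.OR
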