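import Mathlib

/-!
# Affine transformations of the line, words, and polynomials
-/

set_option autoImplicit false

namespace Pool.Agent.Helper28.OR

open MvPolynomial

variable {K : Type} [Field K]

/-- an affine transformation of the line is determined by its values at `0` and `1` -/
theorem aff_apply (e : K ≃ᵃ[K] K) (x : K) : e x = (e 1 - e 0) * x + e 0 := by
  have h : ∀ y : K, e y = y * e.linear 1 + e 0 := by
    intro y
    have h1 := e.map_vadd (0 : K) y
    simp only [vadd_eq_add, add_zero] at h1
    rw [h1]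
    congr 1
    have := e.linear.map_smul y 1
    simpa using this
  rw [h x, h 1]
  ring

/-- the slope of an affine transformation of the line -/
def slope (e : K ≃ᵃ[K] K) : Kˣ where
  val := e 1 - e 0
  inv := e.symm 1 - e.symm 0
  val_inv := by
    have h1 := aff_apply e (e.symm 1)
    have h0 := aff_apply e (e.symm 0)
    rw [e.apply_symm_apply] at h1 h0
    linear_combination h0 - h1
  inv_val := by
    have h1 := aff_apply e (e.symm 1)
    have h0 := aff_apply e (e.symm 0)
    rw [e.apply_symm_apply] at h1 h0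
    linear_combination h0 - h1

theorem slope_val (e : K ≃ᵃ[K] K) : (slope e : K) = e 1 - e 0 := rfl

theorem aff_apply' (e : K ≃ᵃ[K] K) (x : K) : e x = slope e * x + e 0 := aff_apply e x

theorem slope_mul (e f : K ≃ᵃ[K] K) : slope (e * f) = slope e * slope f := by
  ext
  rw [Units.val_mul, slope_val]
  show e (f 1) - e (f 0) = _
  rw [aff_apply' e (f 1), aff_apply' e (f 0), slope_val f]
  ring

theorem slope_one : slope (1 : K ≃ᵃ[K] K) = 1 := by
  ext
  rw [slope_val]
  show (1 : K) - 0 = 1
  ring

/-- the transformation `x ↦ a x + b` -/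
def mkAff (a : Kˣ) (b : K) : K ≃ᵃ[K] K where
  toFun := fun x => a * x + b
  invFun := fun y => (a⁻¹ : Kˣ) * (y - b)
  left_inv := fun x => by simp
  right_inv := fun y => by simp
  linear := LinearEquiv.smulOfUnit a
  map_vadd' := fun p v => by
    show (a : K) * (v + p) + b = (a : K) * v + ((a : K) * p + b)
    ring

theorem mkAff_apply (a : Kˣ) (b x : K) : mkAff a b x = a * x + b := rfl

/-- the parametrisation of the affine group of the line -/
def affEquiv (K : Type) [Field K] : (K ≃ᵃ[K] K) ≃ Kˣ × K where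
  toFun := fun e => (slope e, e 0)
  invFun := fun y => mkAff y.1 y.2
  left_inv := fun e => by
    ext x
    rw [mkAff_apply, ← aff_apply']
  right_inv := fun y => by
    refine Prod.ext ?_ ?_
    · ext
      rw [slope_val, mkAff_apply, mkAff_apply]
      simp
    · show mkAff y.1 y.2 0 = y.2
      rw [mkAff_apply]
      simp

theorem aff_ext {e f : K ≃ᵃ[K] K} (h1 : slope e = slope f) (h2 : e 0 = f 0) : e = f :=
  (affEquiv K).injective (Prod.ext h1 h2)

theorem mul_zero' (e f : K ≃ᵃ[K] K) : (e * f) 0 = slope e * f 0 + e 0 := aff_apply' e (f 0)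

theorem inv_zero' (e : K ≃ᵃ[K] K) : (e⁻¹) 0 = - ((slope e)⁻¹ : Kˣ) * e 0 := by
  have h : (e * e⁻¹) 0 = 0 := by rw [mul_inv_cancel]; rfl
  rw [mul_zero'] at h
  have h2 : (((slope e)⁻¹ : Kˣ) : K) * slope e = 1 := by simp
  linear_combination (((slope e)⁻¹ : Kˣ) : K) * h - (e⁻¹) 0 * h2

theorem slope_inv (e : K ≃ᵃ[K] K) : slope e⁻¹ = (slope e)⁻¹ := by
  have h : slope (e⁻¹ * e) = 1 := by rw [inv_mul_cancel, slope_one]
  rw [slope_mul] at h
  exact eq_inv_of_mul_eq_one_left h

/-- the translations -/
theorem trans_iff (e : K ≃ᵃ[K] K) (v : K) :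
    e = AffineEquiv.constVAdd K K v ↔ slope e = 1 ∧ e 0 = v := by
  constructor
  · rintro rfl
    refine ⟨?_, by simp⟩
    ext
    rw [slope_val]
    simp
  · rintro ⟨h1, h2⟩
    refine aff_ext ?_ ?_
    · rw [h1]
      ext
      rw [slope_val]
      simp
    · rw [h2]
      simp

/-- the translation vector of the commutator of the first two generators -/
theorem comm_trans (e f : K ≃ᵃ[K] K) :
    e * f * e⁻¹ * f⁻¹ = AffineEquiv.constVAdd K K ((1 - slope f) * e 0 + (slope e - 1) * f 0) := by
  rw [trans_iff]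
  refine ⟨?_, ?_⟩
  · rw [slope_mul, slope_mul, slope_mul, slope_inv, slope_inv, mul_right_comm (slope e)]
    group
  · rw [mul_zero', mul_zero', mul_zero', inv_zero', inv_zero', slope_mul, slope_mul, slope_inv]
    have h1 : (slope e : K) * ((slope e)⁻¹ : Kˣ) = 1 := by simp
    have h2 : (slope f : K) * ((slope f)⁻¹ : Kˣ) = 1 := by simp
    simp only [Units.val_mul]
    linear_combination (-(f 0) * (slope f : K) * (((slope f)⁻¹ : Kˣ) : K) - slope f * e 0) * h1 - f 0 * h2

theorem conj_trans (e : K ≃ᵃ[K] K) (v : K) :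
    e * AffineEquiv.constVAdd K K v * e⁻¹ = AffineEquiv.constVAdd K K (slope e * v) := by
  have hv := (trans_iff (AffineEquiv.constVAdd K K v) v).1 rfl
  rw [trans_iff]
  refine ⟨?_, ?_⟩
  · rw [slope_mul, slope_mul, slope_inv, hv.1, mul_one, mul_inv_cancel]
  · rw [mul_zero', mul_zero', inv_zero', slope_mul, hv.1, hv.2, mul_one]
    have h1 : (slope e : K) * ((slope e)⁻¹ : Kˣ) = 1 := by simp
    linear_combination (- e 0) * h1

theorem add_trans' (u v : K) : AffineEquiv.constVAdd K K u * AffineEquiv.constVAdd K K v =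
    AffineEquiv.constVAdd K K (u + v) := by
  ext x
  show u + (v + x) = (u + v) + x
  ring

/-- the translation vector `(1 - a_1) b_0 + (a_0 - 1) b_1` of the commutator -/
def tau {m : ℕ} (φ : Fin (m + 2) → (K ≃ᵃ[K] K)) : K :=
  (1 - slope (φ 1)) * φ 0 0 + (slope (φ 0) - 1) * φ 1 0

/-- **Every polynomial is the derivative of a word.** -/
theorem exists_word {m : ℕ} (g : MvPolynomial (Fin (m + 2)) ℤ) :
    ∃ w ∈ commutator (FreeGroup (Fin (m + 2))),
      ∀ (K : Type) [Field K] (φ : Fin (m + 2) → (K ≃ᵃ[K] K)),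
      FreeGroup.lift φ w = AffineEquiv.constVAdd K K
        (aeval (fun i => (slope (φ i) : K)) g * tau φ) := by
  induction g using MvPolynomial.induction_on with
  | C a =>
    refine ⟨(FreeGroup.of 0 * FreeGroup.of 1 * (FreeGroup.of 0)⁻¹ * (FreeGroup.of 1)⁻¹) ^ a,
      Subgroup.zpow_mem _ (Subgroup.commutator_mem_commutator (Subgroup.mem_top _)
        (Subgroup.mem_top _)) a, fun K _ φ => ?_⟩
    rw [map_zpow, map_mul, map_mul, map_mul, map_inv, map_inv, FreeGroup.lift_apply_of,
      FreeGroup.lift_apply_of, comm_trans, aeval_C]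
    show (AffineEquiv.constVAdd K K (tau φ)) ^ a = _
    simp only [algebraMap_int_eq, eq_intCast]
    induction a using Int.induction_on with
    | zero =>
      ext x
      simp
    | succ i ih =>
      rw [zpow_add_one, ih, add_trans']
      congr 1
      push_cast
      ring
    | pred i ih =>
      have hinv : (AffineEquiv.constVAdd K K (tau φ))⁻¹ = AffineEquiv.constVAdd K K (-tau φ) := by
        rw [inv_eq_iff_mul_eq_one, add_trans']
        ext x
        simp
      rw [zpow_sub_one, ih, hinv, add_trans']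
      congr 1
      push_cast
      ring
  | add p q hp hq =>
    obtain ⟨u, hu', hu⟩ := hp
    obtain ⟨v, hv', hv⟩ := hq
    refine ⟨u * v, mul_mem hu' hv', fun K _ φ => ?_⟩
    rw [map_mul, hu K φ, hv K φ, add_trans', map_add, add_mul]
  | mul_X p i hp =>
    obtain ⟨u, hu', hu⟩ := hp
    refine ⟨FreeGroup.of i * u * (FreeGroup.of i)⁻¹,
      (inferInstance : (commutator (FreeGroup (Fin (m + 2)))).Normal).conj_mem u hu' _,
      fun K _ φ => ?_⟩
    rw [map_mul, map_mul, map_inv, hu K φ, FreeGroup.lift_apply_of, conj_trans, map_mul, aeval_X]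
    congr 1
    ring

end Pool.Agent.Helper28.OR
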